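import Pool.Agent.SBim.Step

/-! MODULE RAN : the image of `theta`. -/

open MvPolynomial

namespace Pool.Agent.SBim

noncomputable section

variable {k : Type} [Field k] {n : ℕ}

/-- multiplication by a variable of the factor `j` preserves `L` -/
theorem RAN_mul (m : ℕ) : ∀ (w : Fin m → Fin n) (j : Fin (m + 1)) (i : Fin (n + 1))
    (g : (BF k w).X → PCan.R k n), g ∈ (BF k w).L →
    (fun e => (X (slot k m w j e i) : PCan.R k n) * g e) ∈ (BF k w).L := by
  induction m with
  | zero =>
    intro w j i g _
    exact PCan.UNIT0_mem _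
  | succ m ih =>
    intro w j i g hg
    refine Fin.lastCases ?_ (fun j' => ?_) j
    · have h1 := (BF k w).right' g hg (X i)
      convert h1 using 1
      funext e
      congr 1
      show _ = rename ((BF k w).pr e) (X i)
      rw [rename_X]
      congr 2
      exact Fin.lastCases_last
    · have hg' : g ∈ PCan.tbL (BF k (fun j => w j.castSucc)) (w (Fin.last m)) := hg
      obtain ⟨h1, l, hl, hle⟩ := hg'
      have hs : ∀ e : (BF k w).X, slot k (m + 1) w j'.castSucc e =
          slot k m (fun j => w j.castSucc) j' e.1 := fun e => Fin.lastCases_castSucc j'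
      show (fun e : (BF k w).X => (X (slot k (m + 1) w j'.castSucc e i) : PCan.R k n) * g e) ∈
        PCan.tbL (BF k (fun j => w j.castSucc)) (w (Fin.last m))
      simp only [hs]
      refine ⟨ih (fun j => w j.castSucc) j' i _ h1, _,
        ih (fun j => w j.castSucc) j' i l hl, fun e => ?_⟩
      have h2 := hle e
      show X (slot k m (fun j => w j.castSucc) j' e i) * g (e, false) -
        X (slot k m (fun j => w j.castSucc) j' e i) * g (e, true) = _
      linear_combination (X (slot k m (fun j => w j.castSucc) j' e i) : PCan.R k n) * h2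

theorem RAN_one (w : List (Fin n)) : (fun _ => 1) ∈ (PCan.BSb k w).L := by
  induction w with
  | nil => exact PCan.UNIT0_mem _
  | cons i w ih => exact PCan.tb_diag (PCan.BSb k w) i ih

theorem RAN_X {m : ℕ} (w : Fin m → Fin n) (p : Fin (m + 1) × Fin (n + 1)) (e : (BF k w).X) :
    theta w (X p) e = X (slot k m w p.1 e p.2) := by
  unfold theta
  rw [aeval_X]

theorem theta_mem {m : ℕ} (w : Fin m → Fin n)
    (f : MvPolynomial (Fin (m + 1) × Fin (n + 1)) k) : theta w f ∈ (BF k w).L := by
  induction f using MvPolynomial.induction_on with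
  | C a =>
    have h1 := (BF k w).L.smul_mem (C a) (RAN_one (k := k) (lst m w))
    convert h1 using 1
    funext e
    rw [theta_apply, rename_C]
    simp
  | add p q hp hq =>
    rw [map_add]
    exact (BF k w).L.add_mem hp hq
  | mul_X p i hp =>
    have h1 := RAN_mul m w i.1 i.2 _ hp
    convert h1 using 1
    funext e
    rw [map_mul, Pi.mul_apply, RAN_X, mul_comm]

/-- induction on `m`: `(u, v)`, `u - v = l α`: `u = theta (g + h x_i)`, `h ↦ l`, `g ↦ u - l x_i` -/
theorem RAN_surj (m : ℕ) : ∀ (w : Fin m → Fin n) (g : (BF k w).X → PCan.R k n),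
    g ∈ (BF k w).L → ∃ f, theta w f = g := by
  induction m with
  | zero =>
    intro w g _
    refine ⟨rename (fun i => (0, i)) (g ()), ?_⟩
    funext e
    have he : e = () := rfl
    subst he
    rw [theta_slot]
    show rename ((1 : PCan.W n)) (g ()) = g ()
    exact rename_id_apply (g ())
  | succ m ih =>
    intro w g hg
    have hg' : g ∈ PCan.tbL (BF k (fun j => w j.castSucc)) (w (Fin.last m)) := hg
    obtain ⟨h1, l, hl, hle⟩ := hg'
    obtain ⟨h, hh⟩ := ih (fun j => w j.castSucc) l hl
    have h2 := (BF k (fun j => w j.castSucc)).right' l hl (X (w (Fin.last m)).castSucc)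
    obtain ⟨G, hG⟩ := ih (fun j => w j.castSucc) _
      ((BF k (fun j => w j.castSucc)).L.sub_mem h1 h2)
    refine ⟨up1 G + up1 h * X (Fin.last (m + 1), (w (Fin.last m)).castSucc), ?_⟩
    funext e
    obtain ⟨e, b⟩ := e
    rw [map_add, map_mul, Pi.add_apply, Pi.mul_apply, step_theta, step_theta, RAN_X, hh, hG]
    have hs : slot k (m + 1) w (Fin.last (m + 1)) (e, b) = (BF k w).pr (e, b) :=
      Fin.lastCases_last
    show (g (e, false) - PCan.act ((BF k (fun j => w j.castSucc)).pr e)
      (X (w (Fin.last m)).castSucc) * l e) +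
      l e * X (slot k (m + 1) w (Fin.last (m + 1)) (e, b) (w (Fin.last m)).castSucc) = g (e, b)
    rw [hs]
    have ha : ∀ (v : PCan.W n) (i : Fin (n + 1)), PCan.act v (X i : PCan.R k n) = X (v i) :=
      fun v i => rename_X _ _
    have h3 := hle e
    rw [ha]
    cases b with
    | false =>
      have hp : (BF k w).pr (e, false) = (BF k (fun j => w j.castSucc)).pr e := by
        show PCan.tbpr (BF k (fun j => w j.castSucc)) (w (Fin.last m)) (e, false) = _
        simp [PCan.tbpr]
      rw [hp]
      ring
    | true =>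
      have hp : (BF k w).pr (e, true) = (BF k (fun j => w j.castSucc)).pr e *
        PCan.sr (w (Fin.last m)) := by
        show PCan.tbpr (BF k (fun j => w j.castSucc)) (w (Fin.last m)) (e, true) = _
        simp [PCan.tbpr]
      rw [hp, Equiv.Perm.mul_apply]
      have h4 : PCan.sr (w (Fin.last m)) (w (Fin.last m)).castSucc = (w (Fin.last m)).succ :=
        Equiv.swap_apply_left _ _
      rw [h4]
      unfold PCan.al PCan.rt at h3
      rw [map_sub, ha, ha] at h3
      linear_combination h3

theorem theta_surj {m : ℕ} (w : Fin m → Fin n) {g : (BF k w).X → PCan.R k n}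
    (hg : g ∈ (BF k w).L) : ∃ f, theta w f = g :=
  RAN_surj m w g hg

end

end Pool.Agent.SBim
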