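import Pool.Agent.SBim.Ker
import Pool.Agent.SBim.Ran

/-! MODULE NULL : vanishing at `y`. -/

open MvPolynomial

namespace Pool.Agent.SBim

noncomputable section

variable {k : Type} [Field k] {n : ℕ}

private lemma NULL_theta {m : ℕ} (w : Fin m → Fin n)
    (a : MvPolynomial (Fin (n + 1) ⊕ Fin (n + 1)) k) (e : (BF k w).X) :
    theta w (rename (Sum.elim (fun i => ((0 : Fin (m + 1)), i)) (fun i => (Fin.last m, i))) a) e =
      rename (Sum.elim id ((BF k w).pr e)) a := by
  rw [theta_apply, rename_rename]
  congr 2
  funext s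
  rcases s with i | i
  · simp [slot_zero]
  · simp [slot_last]

/-- (→) `theta (a c) e = a(x, (pr e) x) * theta c e`.
(←) `a = ∏_z (right variable f z - left variable z (f z))` over the values `z ≠ y` of `pr`, where
`z (f z) ≠ y (f z)`; `theta (a c) = 0`. -/
theorem null_iff {m : ℕ} (w : Fin m → Fin n) (y : PCan.W n)
    (c : MvPolynomial (Fin (m + 1) × Fin (n + 1)) k) :
    IsNull w y c ↔ ∀ e, (BF k w).pr e = y → theta w c e = 0 := by
  classical
  constructor
  · rintro ⟨a, ha, hac⟩ e he
    have h1 := (theta_eq_zero w _).2 hac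
    have h2 := congrFun h1 e
    rw [map_mul, Pi.mul_apply, NULL_theta, he, Pi.zero_apply] at h2
    rcases mul_eq_zero.1 h2 with h3 | h3
    · exact absurd h3 ha
    · exact h3
  · intro h
    have hex : ∀ z : PCan.W n, z ≠ y → ∃ i, z i ≠ y i := by
      intro z hz
      by_contra hcon
      push Not at hcon
      exact hz (Equiv.ext hcon)
    let f : PCan.W n → Fin (n + 1) := fun z => if hz : z ≠ y then (hex z hz).choose else 0
    have hf : ∀ z, z ≠ y → z (f z) ≠ y (f z) := by
      intro z hz
      have : f z = (hex z hz).choose := by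
        show (if hz : z ≠ y then (hex z hz).choose else 0) = _
        rw [dif_pos hz]
      rw [this]
      exact (hex z hz).choose_spec
    refine ⟨∏ z ∈ Finset.univ.erase y, (X (Sum.inr (f z)) - X (Sum.inl (z (f z)))), ?_, ?_⟩
    · rw [map_prod]
      refine Finset.prod_ne_zero_iff.2 (fun z hz => ?_)
      rw [map_sub, rename_X, rename_X, Sum.elim_inr, Sum.elim_inl, id]
      intro h0
      exact hf z (Finset.ne_of_mem_erase hz) ((X_injective (sub_eq_zero.1 h0)).symm)
    · rw [← theta_eq_zero]
      funext e
      rw [map_mul, Pi.mul_apply, NULL_theta, Pi.zero_apply]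
      by_cases he : (BF k w).pr e = y
      · rw [h e he, mul_zero]
      · rw [map_prod]
        have : (∏ z ∈ Finset.univ.erase y, rename (Sum.elim id ((BF k w).pr e))
            ((X (Sum.inr (f z)) - X (Sum.inl (z (f z))) :
              MvPolynomial (Fin (n + 1) ⊕ Fin (n + 1)) k))) = 0 := by
          refine Finset.prod_eq_zero (i := (BF k w).pr e)
            (Finset.mem_erase.2 ⟨he, Finset.mem_univ _⟩) ?_
          rw [map_sub, rename_X, rename_X, Sum.elim_inr, Sum.elim_inl, id, sub_self]
        rw [this, zero_mul]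

end

end Pool.Agent.SBim
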