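import Pool.Agent.SBim.Sub
import Pool.Agent.SBim.Null

/-! MODULE DIM : dimensions of the stalks. -/

open MvPolynomial

namespace Pool.Agent.SBim

noncomputable section

variable {k : Type} [Field k] {n : ℕ}

theorem DIM_left {m : ℕ} (w : Fin m → Fin n) (f : MvPolynomial (Fin (n + 1)) k)
    (c : MvPolynomial (Fin (m + 1) × Fin (n + 1)) k) :
    theta w (rename (fun i => (0, i)) f * c) = f • theta w c := by
  funext e
  rw [map_mul, Pi.mul_apply, theta_slot, slot_zero]
  have : PCan.act (1 : PCan.W n) f = f := by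
    show rename ((1 : PCan.W n) : Fin (n + 1) → Fin (n + 1)) f = f
    rw [Equiv.Perm.coe_one, rename_id, AlgHom.id_apply]
  rw [this]
  rfl

/-- `theta` followed by the restriction to the points over `y` -/
def DIM_F {m : ℕ} (w : Fin m → Fin n) (y : PCan.W n) :
    MvPolynomial (Fin (m + 1) × Fin (n + 1)) k →ₗ[k] ((BF k w).X → PCan.R k n) :=
  ((PCan.res (BF k w).pr y).restrictScalars k).comp (theta w).toLinearMap

theorem DIM_F_apply {m : ℕ} (w : Fin m → Fin n) (y : PCan.W n)
    (c : MvPolynomial (Fin (m + 1) × Fin (n + 1)) k) :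
    DIM_F w y c = PCan.res (BF k w).pr y (theta w c) := rfl

theorem DIM_F_left {m : ℕ} (w : Fin m → Fin n) (y : PCan.W n) (f : MvPolynomial (Fin (n + 1)) k)
    (c : MvPolynomial (Fin (m + 1) × Fin (n + 1)) k) :
    DIM_F w y (rename (fun i => (0, i)) f * c) = f • DIM_F w y c := by
  rw [DIM_F_apply, DIM_left, map_smul, DIM_F_apply]

theorem DIM_F_zero_iff {m : ℕ} (w : Fin m → Fin n) (y : PCan.W n)
    (c : MvPolynomial (Fin (m + 1) × Fin (n + 1)) k) : DIM_F w y c = 0 ↔ IsNull w y c := by
  rw [null_iff, DIM_F_apply]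
  constructor
  · intro h e he
    have := congrFun h e
    have h2 : PCan.res (BF k w).pr y (theta w c) e =
        if (BF k w).pr e = y then theta w c e else 0 := rfl
    rw [h2, if_pos he] at this
    exact this
  · intro h
    funext e
    have h2 : PCan.res (BF k w).pr y (theta w c) e =
        if (BF k w).pr e = y then theta w c e else 0 := rfl
    rw [h2]
    split_ifs with he
    · exact h e he
    · rfl

theorem DIM_mem_stalk {m : ℕ} (w : Fin m → Fin n)
    (C : Submodule k (MvPolynomial (Fin (m + 1) × Fin (n + 1)) k)) (hC : IsSubBim w C)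
    (y : PCan.W n) {g : (BF k w).X → PCan.R k n} :
    g ∈ (PCan.subBim (BF k w) (img w C hC) (img_isSub w C hC)).stalk y ↔
      ∃ c ∈ C, DIM_F w y c = g := by
  constructor
  · rintro ⟨h, ⟨c, hc, rfl⟩, rfl⟩
    exact ⟨c, hc, rfl⟩
  · rintro ⟨c, hc, rfl⟩
    exact ⟨theta w c, ⟨c, hc, rfl⟩, rfl⟩

theorem DIM_null_le {m : ℕ} (w : Fin m → Fin n)
    (C : Submodule k (MvPolynomial (Fin (m + 1) × Fin (n + 1)) k)) (hC : IsSubBim w C)
    (y : PCan.W n) : nullAt w C y ≤ C := by
  unfold nullAt
  refine sup_le (Submodule.span_le.2 ?_) (Submodule.span_le.2 ?_)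
  · rintro c ⟨hc, _⟩
    exact hc
  · rintro g ⟨f, c, hc, _, rfl⟩
    exact (hC.2.1 c hc f).1

/-- membership in `nullAt` -/
theorem DIM_null_iff {m : ℕ} (w : Fin m → Fin n)
    (C : Submodule k (MvPolynomial (Fin (m + 1) × Fin (n + 1)) k)) (hC : IsSubBim w C)
    (y : PCan.W n) {c : MvPolynomial (Fin (m + 1) × Fin (n + 1)) k} (hc : c ∈ C) :
    c ∈ nullAt w C y ↔ DIM_F w y c ∈
      PCan.Rp k n • (PCan.subBim (BF k w) (img w C hC) (img_isSub w C hC)).stalk y := by
  constructor
  · intro h
    unfold nullAt at h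
    rw [Submodule.mem_sup] at h
    obtain ⟨a, ha, b, hb, rfl⟩ := h
    rw [map_add]
    refine Submodule.add_mem _ ?_ ?_
    · have h0 : DIM_F w y a = 0 := by
        refine Submodule.span_induction (p := fun x _ => DIM_F w y x = 0) ?_ ?_ ?_ ?_ ha
        · rintro x ⟨_, hx⟩
          exact (DIM_F_zero_iff w y x).2 hx
        · exact map_zero _
        · intro x z _ _ hx hz
          rw [map_add, hx, hz, add_zero]
        · intro r x _ hx
          rw [map_smul, hx, smul_zero]
      rw [h0]
      exact Submodule.zero_mem _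
    · refine Submodule.span_induction (p := fun x _ => DIM_F w y x ∈
        PCan.Rp k n • (PCan.subBim (BF k w) (img w C hC) (img_isSub w C hC)).stalk y)
        ?_ ?_ ?_ ?_ hb
      · rintro x ⟨f, c', hc', hf, rfl⟩
        rw [DIM_F_left]
        exact Submodule.smul_mem_smul (I := PCan.Rp k n)
          (N := (PCan.subBim (BF k w) (img w C hC) (img_isSub w C hC)).stalk y) hf
          ((DIM_mem_stalk w C hC y).2 ⟨c', hc', rfl⟩)
      · rw [map_zero]; exact Submodule.zero_mem _
      · intro x z _ _ hx hz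
        rw [map_add]
        exact Submodule.add_mem _ hx hz
      · intro r x _ hx
        rw [map_smul]
        have : r • DIM_F w y x = (MvPolynomial.C r : PCan.R k n) • DIM_F w y x := by
          funext e
          show r • DIM_F w y x e = MvPolynomial.C r * DIM_F w y x e
          rw [smul_eq_C_mul]
        rw [this]
        exact Submodule.smul_mem _ _ hx
  · intro h
    have key : ∀ g ∈ PCan.Rp k n •
        (PCan.subBim (BF k w) (img w C hC) (img_isSub w C hC)).stalk y,
        ∃ c' ∈ nullAt w C y, DIM_F w y c' = g := by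
      intro g hg
      refine Submodule.smul_induction_on hg ?_ ?_
      · intro r hr s hs
        obtain ⟨c', hc', rfl⟩ := (DIM_mem_stalk w C hC y).1 hs
        refine ⟨rename (fun i => (0, i)) r * c', ?_, DIM_F_left w y r c'⟩
        unfold nullAt
        refine Submodule.mem_sup_right (Submodule.subset_span ?_)
        exact ⟨r, c', hc', hr, rfl⟩
      · rintro _ _ ⟨a, ha, rfl⟩ ⟨b, hb, rfl⟩
        exact ⟨a + b, Submodule.add_mem _ ha hb, map_add _ _ _⟩
    obtain ⟨c', hc', he⟩ := key _ h
    have h1 : c - c' ∈ nullAt w C y := by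
      unfold nullAt
      refine Submodule.mem_sup_left (Submodule.subset_span ⟨?_, ?_⟩)
      · exact C.sub_mem hc (DIM_null_le w C hC y hc')
      · rw [← DIM_F_zero_iff, map_sub, he, sub_self]
    have h2 := Submodule.add_mem _ h1 hc'
    rwa [sub_add_cancel] at h2

theorem DIM_hom {m : ℕ} (w : Fin m → Fin n) (y : PCan.W n) (d : ℕ)
    {c : MvPolynomial (Fin (m + 1) × Fin (n + 1)) k} (hc : c.IsHomogeneous d) :
    DIM_F w y c ∈ PCan.HF k n (BF k w).X d := by
  intro e
  rw [DIM_F_apply]
  have h2 : PCan.res (BF k w).pr y (theta w c) e =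
        if (BF k w).pr e = y then theta w c e else 0 := rfl
  rw [h2]
  split_ifs
  · rw [PCan.HZ_iff, theta_apply]
    exact hc.rename_isHomogeneous
  · exact Submodule.zero_mem _

theorem DIM_hc {m : ℕ} (w : Fin m → Fin n) (y : PCan.W n) (d : ℕ)
    (c : MvPolynomial (Fin (m + 1) × Fin (n + 1)) k)
    (hc : DIM_F w y c ∈ PCan.HF k n (BF k w).X d) :
    DIM_F w y (homogeneousComponent d c) = DIM_F w y c := by
  funext e
  have h1 := hc e
  rw [DIM_F_apply] at h1 ⊢
  rw [DIM_F_apply]
  have h2 : ∀ g : (BF k w).X → PCan.R k n, PCan.res (BF k w).pr y g e =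
        if (BF k w).pr e = y then g e else 0 := fun _ => rfl
  rw [h2] at h1 ⊢
  rw [h2]
  split_ifs with he
  · rw [if_pos he] at h1
    rw [theta_hc]
    rw [PCan.HZ_iff] at h1
    rw [homogeneousComponent_of_mem h1, if_pos rfl]
  · rfl

theorem DIM_fin (σ : Type) [Finite σ] (d : ℕ) :
    FiniteDimensional k (homogeneousSubmodule σ k d) := by
  have hfin : Finite {m : σ →₀ ℕ // m.degree = d} := by
    apply Set.Finite.to_subtype
    exact Finsupp.finite_of_degree_eq (σ := σ) d
  let f : homogeneousSubmodule σ k d →ₗ[k] ({m : σ →₀ ℕ // m.degree = d} → k) :=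
    { toFun := fun p m => coeff m.1 p.1
      map_add' := fun p q => by
        funext m
        exact coeff_add _ _ _
      map_smul' := fun c p => by
        funext m
        exact coeff_smul _ _ _ }
  have hf : Function.Injective f := by
    intro p q hpq
    apply Subtype.ext
    ext m
    by_cases hm : m.degree = d
    · exact congrFun hpq ⟨m, hm⟩
    · have h1 : ∀ p : homogeneousSubmodule σ k d, coeff m p.1 = 0 := by
        intro p
        by_contra hne
        apply hm
        have := p.2 hne
        rw [Finsupp.degree_eq_weight_one]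
        exact this
      rw [h1 p, h1 q]
  exact FiniteDimensional.of_injective f hf

/-- `C_d → (stalk / R_+ stalk)_d`, `c ↦ res y (theta c)`, is surjective with kernel
`(nullAt w C y)_d` (`nullAt ≤ C`; everything of degree `d` is finite dimensional). -/
theorem dim_eq {m : ℕ} (w : Fin m → Fin n)
    (C : Submodule k (MvPolynomial (Fin (m + 1) × Fin (n + 1)) k)) (hC : IsSubBim w C)
    (y : PCan.W n) (d : ℕ) :
    stalkDim w C y d = (PCan.subBim (BF k w) (img w C hC) (img_isSub w C hC)).ch y d := by
  set H := homogeneousSubmodule (Fin (m + 1) × Fin (n + 1)) k d with hH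
  set M := PCan.subBim (BF k w) (img w C hC) (img_isSub w C hC) with hM
  have hfd : FiniteDimensional k H := DIM_fin _ d
  have hfV : FiniteDimensional k ↥(C ⊓ H) :=
    Submodule.finiteDimensional_of_le (inf_le_right : C ⊓ H ≤ H)
  have hle : nullAt w C y ⊓ H ≤ C ⊓ H := inf_le_inf_right H (DIM_null_le w C hC y)
  -- the map to the stalk
  let f : ↥(C ⊓ H) →ₗ[k] ↥(PCan.dg (M.stalk y) d) :=
    { toFun := fun c => ⟨DIM_F w y c.1, (DIM_mem_stalk w C hC y).2 ⟨c.1, c.2.1, rfl⟩,
        DIM_hom w y d c.2.2⟩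
      map_add' := fun a b => Subtype.ext (map_add _ _ _)
      map_smul' := fun r a => Subtype.ext (map_smul _ _ _) }
  have hf : Function.Surjective f := by
    intro g
    obtain ⟨c, hc, hg⟩ := (DIM_mem_stalk w C hC y).1 g.2.1
    refine ⟨⟨homogeneousComponent d c, hC.2.2 c hc d, homogeneousComponent_mem d c⟩, ?_⟩
    apply Subtype.ext
    show DIM_F w y (homogeneousComponent d c) = g.1
    rw [DIM_hc w y d c (by rw [hg]; exact g.2.2), hg]
  set Q := (PCan.dg (PCan.Rp k n • M.stalk y) d).comap (PCan.dg (M.stalk y) d).subtype with hQ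
  have hker : LinearMap.ker (Q.mkQ.comp f) = (nullAt w C y ⊓ H).comap (C ⊓ H).subtype := by
    ext c
    rw [LinearMap.mem_ker, LinearMap.comp_apply, Submodule.mkQ_apply, Submodule.Quotient.mk_eq_zero,
      hQ, Submodule.mem_comap, Submodule.mem_comap]
    constructor
    · intro h
      refine ⟨?_, c.2.2⟩
      exact (DIM_null_iff w C hC y c.2.1).2 h.1
    · intro h
      exact ⟨(DIM_null_iff w C hC y c.2.1).1 h.1, DIM_hom w y d c.2.2⟩
  have hsurj : Function.Surjective (Q.mkQ.comp f) := by
    rw [LinearMap.coe_comp]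
    exact (Submodule.mkQ_surjective Q).comp hf
  have h1 := LinearMap.finrank_range_add_finrank_ker (Q.mkQ.comp f)
  rw [LinearMap.range_eq_top.2 hsurj, finrank_top, hker] at h1
  have h2 : Module.finrank k ↥((nullAt w C y ⊓ H).comap (C ⊓ H).subtype) =
      Module.finrank k ↥(nullAt w C y ⊓ H) :=
    (Submodule.comapSubtypeEquivOfLe hle).finrank_eq
  rw [h2] at h1
  have h3 : stalkDim w C y d = Module.finrank k ↥(C ⊓ H) - Module.finrank k ↥(nullAt w C y ⊓ H) :=
    rfl
  have h4 : M.ch y d = Module.finrank k (↥(PCan.dg (M.stalk y) d) ⧸ Q) := rfl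
  rw [h3, h4]
  omega

/-- no elements of negative degree -/
theorem ch_neg (M : PCan.Bim k n) (y : PCan.W n) (d : ℤ) (hd : d < 0) : M.ch y d = 0 := by
  unfold PCan.Bim.ch
  have h : ∀ x : ↥(PCan.dg (M.stalk y) d), x = 0 := by
    intro x
    apply Subtype.ext
    funext e
    exact PCan.HZ_neg hd (x.2.2 e)
  have : Subsingleton ↥(PCan.dg (M.stalk y) d) := ⟨fun a b => by rw [h a, h b]⟩
  have h2 : Subsingleton (↥(PCan.dg (M.stalk y) d) ⧸
    (PCan.dg (PCan.Rp k n • M.stalk y) d).comap (PCan.dg (M.stalk y) d).subtype) := by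
    infer_instance
  exact Module.finrank_zero_of_subsingleton

end

end Pool.Agent.SBim
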