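import Pool.Agent.SBim.Ind
import Pool.Agent.SBim.Dim

/-! MODULE EQV : the two definitions of the `p`-canonical basis agree. -/

open MvPolynomial

namespace Pool.Agent.SBim

noncomputable section

variable {k : Type} [Field k] {n : ℕ}

theorem pcanonical_iff (x : PCan.W n) (β : PCan.Hk n) :
    IsPCanonical k x β ↔ PCan.IsPCanonical k x β := by
  constructor
  · rintro ⟨m, w, hx, hm, C, hI, hn, hβ⟩
    have hC : IsSubBim w C := isSubBim_of_indec w C hI
    have hz : PCan.prd (lst m w) = x := by rw [lst_prd]; exact hx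
    refine ⟨fun y i => ((β y).coeff i).toNat, ⟨lst m w, hz, ?_, img w C hC, img_isSub w C hC, ?_,
      ?_⟩, ?_⟩
    · rw [lst_len]; exact hm
    · rw [← indec_iff w C hC, hz]
      exact ⟨hI, hn⟩
    · intro y
      refine ⟨?_, ?_⟩
      · intro d
        rcases lt_or_ge d 0 with hd | hd
        · rw [ch_neg _ y d hd]
          have h0 := (hβ y ((PCan.len x : ℤ) - PCan.len y - 2 * d)).2 (by
            intro d' h
            have h' : (PCan.len x : ℤ) - PCan.len y - 2 * d =
              (PCan.len x : ℤ) - PCan.len y - 2 * (d' : ℤ) := h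
            omega)
          show ((β y).coeff _).toNat = 0
          rw [h0]; rfl
        · obtain ⟨d', rfl⟩ := Int.eq_ofNat_of_zero_le hd
          have h1 := (hβ y ((PCan.len x : ℤ) - PCan.len y - 2 * (d' : ℤ))).1 d' rfl
          show ((β y).coeff _).toNat = _
          rw [h1, Int.toNat_natCast, dim_eq w C hC y d']
      · intro i hi
        have h0 := (hβ y i).2 (fun d' => hi d')
        show ((β y).coeff _).toNat = 0
        rw [h0]; rfl
    · intro y i
      show (β y).coeff i = (((β y).coeff i).toNat : ℤ)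
      rw [Int.toNat_of_nonneg]
      by_cases h : ∃ d : ℕ, i = (PCan.len x : ℤ) - PCan.len y - 2 * (d : ℤ)
      · obtain ⟨d, hd⟩ := h
        rw [(hβ y i).1 d hd]
        exact Int.natCast_nonneg _
      · push Not at h
        rw [(hβ y i).2 h]
  · rintro ⟨c, ⟨L, hz, hl, S, hS, hB, hc⟩, hβ⟩
    obtain ⟨m, w, rfl⟩ := lst_surj L
    obtain ⟨C, hC, rfl⟩ := exists_pre w S hS
    rw [← indec_iff w C hC, hz] at hB
    refine ⟨m, w, ?_, ?_, C, hB.1, hB.2, ?_⟩
    · rw [← lst_prd]; exact hz
    · rw [lst_len] at hl; exact hl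
    · intro y i
      refine ⟨?_, ?_⟩
      · intro d hd
        have h1 := (hc y).1 (d : ℤ)
        have hd' : i = (PCan.len x : ℤ) - PCan.len y - 2 * (d : ℤ) := hd
        rw [hβ, dim_eq w C hC y d, ← h1, hd']
      · intro hd
        rw [hβ]
        by_cases h : ∃ d : ℤ, i = (PCan.len x : ℤ) - PCan.len y - 2 * d
        · obtain ⟨d, h⟩ := h
          rcases lt_or_ge d 0 with h' | h'
          · have h1 := (hc y).1 d
            rw [ch_neg _ y d h'] at h1
            rw [h, h1]; rfl
          · obtain ⟨d', rfl⟩ := Int.eq_ofNat_of_zero_le h'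
            exact absurd h (hd d')
        · push Not at h
          rw [(hc y).2 i h]; rfl

end

end Pool.Agent.SBim
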