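import Pool.Agent.SBim.Theta

/-! MODULE KLE : the two definitions of the Kazhdan-Lusztig basis agree (the same up to `funext`). -/

open MvPolynomial

namespace Pool.Agent.SBim

noncomputable section

variable {k : Type} [Field k] {n : ℕ}

theorem KLE_hst (x : PCan.W n) :
    (PCan.Hst x : PCan.Hk n) = fun z => if z = x then 1 else 0 := by
  funext z
  unfold PCan.Hst
  rw [Pi.single_apply]

theorem KLE_bar (D : PCan.Hk n → PCan.Hk n) : IsBar D ↔ PCan.IsBar D := by
  constructor
  · rintro ⟨h1, h2, h3, h4⟩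
    refine ⟨fun f g => funext fun y => h1 f g y, fun j f => funext fun y => h2 j f y, ?_,
      fun i f => funext fun y => h4 i f y⟩
    rw [KLE_hst]
    exact funext fun y => h3 y
  · rintro ⟨h1, h2, h3, h4⟩
    refine ⟨fun f g y => congrFun (h1 f g) y, fun j f y => congrFun (h2 j f) y, ?_,
      fun i f y => congrFun (h4 i f) y⟩
    rw [KLE_hst] at h3
    exact fun y => congrFun h3 y

theorem kl_iff (b : PCan.W n → PCan.Hk n) : IsKL b ↔ PCan.IsKL b := by
  constructor
  · rintro ⟨D, hD, h⟩
    exact ⟨D, (KLE_bar D).1 hD, h⟩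
  · rintro ⟨D, hD, h⟩
    exact ⟨D, (KLE_bar D).2 hD, h⟩

end

end Pool.Agent.SBim
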