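import Mathlib

/-!
MP_c7d2ee_al : Soergel bimodules for `S_(n+1)` over a field `k`, the `p`-canonical basis and the
Kazhdan-Lusztig basis: the definitions used in the statement of the result.

Let `R = k[x_0, ..., x_n]`.  For a word `w = (w_0, ..., w_(m-1))` in the simple reflections the
Bott-Samelson bimodule is `BS(w) = R ⊗_(R^(s_0)) R ⊗ ... ⊗_(R^(s_(m-1))) R` (`m + 1` factors), that is, the
quotient of the polynomial ring in the variables `x (j, i)` (`0 ≤ j ≤ m` is the number of the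
tensor factor, `0 ≤ i ≤ n`) by the ideal `bsIdeal k w` generated by all `f^(j) - f^(j+1)` with
`f ∈ R^(s_j)`, where `f^(j)` is `f` written in the variables of the factor `j`.
-/

open MvPolynomial

namespace Pool.Agent.SBim

/-- The ideal `I` with `BS(w) = k[x (j, i)] / I`. -/
noncomputable def bsIdeal (k : Type) [Field k] {m n : ℕ} (w : Fin m → Fin n) :
    Ideal (MvPolynomial (Fin (m + 1) × Fin (n + 1)) k) :=
  Ideal.span {g | ∃ (j : Fin m) (f : MvPolynomial (Fin (n + 1)) k),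
    rename (Equiv.swap (w j).castSucc (w j).succ) f = f ∧
      g = rename (fun i => (j.castSucc, i)) f - rename (fun i => (j.succ, i)) f}

/-- The subspace `C ⊇ I` of the polynomial ring stands for the subspace `C / I` of `BS(w)`.
`IsSubBim` says that `C / I` is a graded sub-bimodule: `R` acts from the left through the
factor `0` and from the right through the factor `m`. -/
def IsSubBim {k : Type} [Field k] {m n : ℕ} (w : Fin m → Fin n)
    (C : Submodule k (MvPolynomial (Fin (m + 1) × Fin (n + 1)) k)) : Prop :=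
  (∀ g ∈ bsIdeal k w, g ∈ C) ∧
  (∀ c ∈ C, ∀ f : MvPolynomial (Fin (n + 1)) k, rename (fun i => (0, i)) f * c ∈ C ∧
    rename (fun i => (Fin.last m, i)) f * c ∈ C) ∧
  ∀ c ∈ C, ∀ d : ℕ, homogeneousComponent d c ∈ C

/-- `C / I` is the direct sum of the graded sub-bimodules `C₁ / I` and `C₂ / I`. -/
def IsSum {k : Type} [Field k] {m n : ℕ} (w : Fin m → Fin n)
    (C C₁ C₂ : Submodule k (MvPolynomial (Fin (m + 1) × Fin (n + 1)) k)) : Prop :=
  IsSubBim w C₁ ∧ IsSubBim w C₂ ∧ C₁ ⊔ C₂ = C ∧ ∀ c ∈ C₁, c ∈ C₂ → c ∈ bsIdeal k w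

/-- `C / I = 0` -/
def IsZero {k : Type} [Field k] {m n : ℕ} (w : Fin m → Fin n)
    (C : Submodule k (MvPolynomial (Fin (m + 1) × Fin (n + 1)) k)) : Prop :=
  ∀ c ∈ C, c ∈ bsIdeal k w

/-- `C / I` is an indecomposable graded direct summand of `BS(w)`. -/
def IsIndec {k : Type} [Field k] {m n : ℕ} (w : Fin m → Fin n)
    (C : Submodule k (MvPolynomial (Fin (m + 1) × Fin (n + 1)) k)) : Prop :=
  ¬ IsZero w C ∧ (∃ C', IsSum w ⊤ C C') ∧
    ∀ C₁ C₂, IsSum w C C₁ C₂ → IsZero w C₁ ∨ IsZero w C₂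

/-- `C⁰_y`: the elements `c` of `C` whose class in the localisation at the graph of `y` vanishes:
there is `a ∈ R ⊗ R` with `a(x, y x) ≠ 0` and `a c = 0` in `BS(w)`.  The quotient `C^y = C / C⁰_y` is the
stalk of `C / I` at `y`. -/
def IsNull {k : Type} [Field k] {m n : ℕ} (w : Fin m → Fin n) (y : Equiv.Perm (Fin (n + 1)))
    (c : MvPolynomial (Fin (m + 1) × Fin (n + 1)) k) : Prop :=
  ∃ a : MvPolynomial (Fin (n + 1) ⊕ Fin (n + 1)) k, rename (Sum.elim id y) a ≠ 0 ∧
    rename (Sum.elim (fun i => (0, i)) (fun i => (Fin.last m, i))) a * c ∈ bsIdeal k w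

/-- The kernel of `C → C^y / R_+ C^y`. -/
noncomputable def nullAt {k : Type} [Field k] {m n : ℕ} (w : Fin m → Fin n)
    (C : Submodule k (MvPolynomial (Fin (m + 1) × Fin (n + 1)) k)) (y : Equiv.Perm (Fin (n + 1))) :
    Submodule k (MvPolynomial (Fin (m + 1) × Fin (n + 1)) k) :=
  Submodule.span k {c | c ∈ C ∧ IsNull w y c} ⊔
    Submodule.span k {g | ∃ f : MvPolynomial (Fin (n + 1)) k, ∃ c ∈ C,
      constantCoeff f = 0 ∧ g = rename (fun i => (0, i)) f * c}

/-- `dim_k (C^y / R_+ C^y)_d = dim_k C_d - dim_k N_d`, `N = nullAt w C y ⊆ C` the kernel of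
`C → C^y / R_+ C^y` (the parts of degree `d` are finite dimensional). -/
noncomputable def stalkDim {k : Type} [Field k] {m n : ℕ} (w : Fin m → Fin n)
    (C : Submodule k (MvPolynomial (Fin (m + 1) × Fin (n + 1)) k)) (y : Equiv.Perm (Fin (n + 1)))
    (d : ℕ) : ℕ :=
  Module.finrank k ↥(C ⊓ homogeneousSubmodule (Fin (m + 1) × Fin (n + 1)) k d) -
    Module.finrank k ↥(nullAt w C y ⊓ homogeneousSubmodule (Fin (m + 1) × Fin (n + 1)) k d)

/-- The length of a permutation: the number of inversions. -/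
def len {n : ℕ} (x : Equiv.Perm (Fin (n + 1))) : ℕ :=
  (Finset.univ.filter (fun p : Fin (n + 1) × Fin (n + 1) => p.1 < p.2 ∧ x p.2 < x p.1)).card

/-- `β = ∑_y β(y) H_y` is the `p`-canonical basis element `^p b_x`, `p = char k`: there are a reduced word
`w` of `x` and an indecomposable graded direct summand `B_x = C / I` of `BS(w)` which is not zero
at `x`, and the coefficient of `v^i H_y` in `β` is `dim_k (B_x^y / R_+ B_x^y)_d` if
`i = l(x) - l(y) - 2 d`, and 0 if `i` is not of this form. -/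
def IsPCanonical (k : Type) [Field k] {n : ℕ} (x : Equiv.Perm (Fin (n + 1)))
    (β : Equiv.Perm (Fin (n + 1)) → LaurentPolynomial ℤ) : Prop :=
  ∃ (m : ℕ) (w : Fin m → Fin n),
    (List.ofFn fun j => Equiv.swap (w j).castSucc (w j).succ).prod = x ∧ m = len x ∧
    ∃ C : Submodule k (MvPolynomial (Fin (m + 1) × Fin (n + 1)) k),
      IsIndec w C ∧ (∃ c ∈ C, ¬ IsNull w x c) ∧
      ∀ (y : Equiv.Perm (Fin (n + 1))) (i : ℤ),
        (∀ d : ℕ, i = len x - len y - 2 * d → (β y).coeff i = stalkDim w C y d) ∧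
        ((∀ d : ℕ, i ≠ len x - len y - 2 * d) → (β y).coeff i = 0)

/-- Right multiplication by `b_s = H_s + v` in the Hecke algebra of `S_(n+1)`, `s = s_i`, on
`∑_y f(y) H_y`: `H_y b_s = H_(ys) + v H_y` if `y s > y`, and `H_(ys) + v⁻¹ H_y` if `y s < y`. -/
noncomputable def mulb {n : ℕ} (i : Fin n) (f : Equiv.Perm (Fin (n + 1)) → LaurentPolynomial ℤ)
    (y : Equiv.Perm (Fin (n + 1))) : LaurentPolynomial ℤ :=
  f (y * Equiv.swap i.castSucc i.succ) +
    LaurentPolynomial.T (if y i.castSucc < y i.succ then 1 else -1) * f y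

/-- `D` is the bar involution: additive, `D(v^j f) = v^(-j) D(f)`, `D(H_1) = H_1`,
`D(f b_s) = D(f) b_s`. -/
def IsBar {n : ℕ} (D : (Equiv.Perm (Fin (n + 1)) → LaurentPolynomial ℤ) →
    (Equiv.Perm (Fin (n + 1)) → LaurentPolynomial ℤ)) : Prop :=
  (∀ f g y, D (fun z => f z + g z) y = D f y + D g y) ∧
  (∀ (j : ℤ) f y, D (fun z => LaurentPolynomial.T j * f z) y = LaurentPolynomial.T (-j) * D f y) ∧
  (∀ y, D (fun z => if z = 1 then 1 else 0) y = if y = 1 then 1 else 0) ∧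
  ∀ i f y, D (mulb i f) y = mulb i (D f) y

/-- `b` is the Kazhdan-Lusztig basis: `b x` is bar invariant and lies in
`H_x + ∑_(y ≠ x) v ℤ[v] H_y`. -/
def IsKL {n : ℕ} (b : Equiv.Perm (Fin (n + 1)) →
    (Equiv.Perm (Fin (n + 1)) → LaurentPolynomial ℤ)) : Prop :=
  ∃ D, IsBar D ∧ ∀ x, D (b x) = b x ∧ b x x = 1 ∧
    ∀ y, y ≠ x → ∀ j : ℤ, j ≤ 0 → (b x y).coeff j = 0

end Pool.Agent.SBim
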