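import Pool.Agent.SBim.Theta

/-! MODULE WRD : words. -/

open MvPolynomial

namespace Pool.Agent.SBim

noncomputable section

variable {k : Type} [Field k] {n : ℕ}

theorem lst_surj (L : List (Fin n)) : ∃ (m : ℕ) (w : Fin m → Fin n), lst m w = L := by
  induction L with
  | nil => exact ⟨0, fun j => j.elim0, rfl⟩
  | cons i L ih =>
    obtain ⟨m, w, h⟩ := ih
    refine ⟨m + 1, Fin.snoc (α := fun _ => Fin n) w i, ?_⟩
    show Fin.snoc (α := fun _ => Fin n) w i (Fin.last m) ::
      lst m (fun j => Fin.snoc (α := fun _ => Fin n) w i j.castSucc) = i :: L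
    rw [Fin.snoc_last]
    congr 1
    rw [← h]
    congr 1
    funext j
    rw [Fin.snoc_castSucc]

theorem lst_prd {m : ℕ} (w : Fin m → Fin n) : PCan.prd (lst m w) =
    (List.ofFn fun j => Equiv.swap (w j).castSucc (w j).succ).prod := by
  induction m with
  | zero => simp [lst, PCan.prd]
  | succ m ih =>
    rw [List.ofFn_succ', List.concat_eq_append, List.prod_append, List.prod_singleton]
    show PCan.prd (w (Fin.last m) :: lst m (fun j => w j.castSucc)) = _
    show PCan.prd (lst m (fun j => w j.castSucc)) * PCan.sr (w (Fin.last m)) = _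
    rw [ih]
    rfl

theorem lst_len {m : ℕ} (w : Fin m → Fin n) : (lst m w).length = m := by
  induction m with
  | zero => rfl
  | succ m ih =>
    show (w (Fin.last m) :: lst m (fun j => w j.castSucc)).length = m + 1
    rw [List.length_cons, ih]

end

end Pool.Agent.SBim
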