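import Pool.Agent.SBim.Sub
import Pool.Agent.SBim.Null
import Pool.Agent.SBim.Wrd

/-! MODULE IND : indecomposable summands. -/

open MvPolynomial

namespace Pool.Agent.SBim

noncomputable section

variable {k : Type} [Field k] {n : ℕ}

theorem indec_iff {m : ℕ} (w : Fin m → Fin n)
    (C : Submodule k (MvPolynomial (Fin (m + 1) × Fin (n + 1)) k)) (hC : IsSubBim w C) :
    (IsIndec w C ∧ ∃ c ∈ C, ¬ IsNull w (PCan.prd (lst m w)) c) ↔
      PCan.IsBz k (lst m w) (img w C hC) := by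
  constructor
  · rintro ⟨⟨_, ⟨C', hs⟩, h3⟩, c, hc, hnull⟩
    refine ⟨img_isSub w C hC, ?_, ?_, ?_⟩
    · have h := (img_sum w ⊤ C C' (top_isSubBim w) hC hs.2.1).2 hs
      exact ⟨img w C' hs.2.1, img_isSub w C' hs.2.1, h.1, h.2.trans (img_top w)⟩
    · intro P Q hP hQ hinf hsup
      obtain ⟨C₁, h₁, e₁⟩ := exists_pre w P hP
      obtain ⟨C₂, h₂, e₂⟩ := exists_pre w Q hQ
      have hsum : IsSum w C C₁ C₂ := by
        refine (img_sum w C C₁ C₂ hC h₁ h₂).1 ?_
        rw [e₁, e₂]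
        exact ⟨hinf, hsup⟩
      rcases h3 C₁ C₂ hsum with h | h
      · left
        rw [← e₁]
        exact (img_zero w C₁ h₁).2 h
      · right
        rw [← e₂]
        exact (img_zero w C₂ h₂).2 h
    · rw [null_iff] at hnull
      push Not at hnull
      obtain ⟨e, he, hne⟩ := hnull
      exact ⟨theta w c, ⟨c, hc, rfl⟩, e, he, hne⟩
  · rintro ⟨_, ⟨C', hC', hinf, hsup⟩, h3, g, ⟨c, hc, hg⟩, e, he, hne⟩
    refine ⟨⟨?_, ?_, ?_⟩, c, hc, ?_⟩
    · intro hz
      have h0 : img w C hC = ⊥ := (img_zero w C hC).2 hz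
      have h1 : theta w c ∈ img w C hC := ⟨c, hc, rfl⟩
      rw [h0, Submodule.mem_bot] at h1
      apply hne
      rw [← hg, h1]
      rfl
    · obtain ⟨C₂, h₂, e₂⟩ := exists_pre w C' hC'
      refine ⟨C₂, (img_sum w ⊤ C C₂ (top_isSubBim w) hC h₂).1 ?_⟩
      rw [e₂, img_top]
      exact ⟨hinf, hsup⟩
    · intro C₁ C₂ hs
      have h := (img_sum w C C₁ C₂ hC hs.1 hs.2.1).2 hs
      rcases h3 _ _ (img_isSub w C₁ hs.1) (img_isSub w C₂ hs.2.1) h.1 h.2 with h' | h'
      · exact Or.inl ((img_zero w C₁ hs.1).1 h')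
      · exact Or.inr ((img_zero w C₂ hs.2.1).1 h')
    · rw [null_iff]
      intro hall
      apply hne
      rw [← hg]
      exact hall e he

/-- a summand is a sub-bimodule -/
theorem isSubBim_of_indec {m : ℕ} (w : Fin m → Fin n)
    (C : Submodule k (MvPolynomial (Fin (m + 1) × Fin (n + 1)) k)) (h : IsIndec w C) :
    IsSubBim w C := by
  obtain ⟨_, ⟨C', hs⟩, _⟩ := h
  exact hs.1

end

end Pool.Agent.SBim
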