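import Pool.Agent.SBim.Step

/-! MODULE KER : the kernel of `theta`. -/

open MvPolynomial

namespace Pool.Agent.SBim

noncomputable section

variable {k : Type} [Field k] {n : ℕ}

private theorem KER_le {m : ℕ} (w : Fin m → Fin n) :
    ∀ f ∈ bsIdeal k w, theta w f = 0 := by
  have hle : bsIdeal k w ≤ RingHom.ker (theta (k := k) w) := by
    rw [bsIdeal, Ideal.span_le]
    rintro g ⟨j, q, hq, rfl⟩
    rw [SetLike.mem_coe, RingHom.mem_ker]
    funext e
    rw [map_sub, Pi.sub_apply, theta_slot, theta_slot, Pi.zero_apply, sub_eq_zero]
    rcases slot_step w j e with h | h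
    · rw [h]
    · rw [h, PCan.act_mul]
      have : PCan.act (PCan.sr (w j)) q = q := hq
      rw [this]
  exact fun f hf => hle hf

/-- (←) generators: `slot_step`.  (→) induction on `m`: `step_decomp`; if
`theta g e + theta h e * x_i = 0 = theta g e + theta h e * x_(i+1)` then `theta h = 0 = theta g`; `step_ideal`. -/
theorem theta_eq_zero {m : ℕ} (w : Fin m → Fin n)
    (f : MvPolynomial (Fin (m + 1) × Fin (n + 1)) k) : theta w f = 0 ↔ f ∈ bsIdeal k w := by
  refine ⟨?_, KER_le w f⟩
  induction m with
  | zero =>
    intro h
    have h1 : theta w f () = 0 := by rw [h]; rfl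
    rw [theta_apply] at h1
    have hinj : Function.Injective
        (fun p : Fin (0 + 1) × Fin (n + 1) => (slot k 0 w p.1 ()) p.2) := by
      rintro ⟨a, b⟩ ⟨c, d⟩ hbd
      have hac : a = c := Subsingleton.elim (α := Fin 1) a c
      have hb : b = d := hbd
      rw [hac, hb]
    have h2 : f = 0 := by
      apply rename_injective _ hinj
      rw [map_zero]
      exact h1
    rw [h2]
    exact (bsIdeal k w).zero_mem
  | succ m ih =>
    intro hf
    obtain ⟨g, h, H⟩ := step_decomp w f
    have h0 : theta w (up1 g + up1 h * X (Fin.last (m + 1), (w (Fin.last m)).castSucc)) = 0 := by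
      have h1 := KER_le w _ H
      rw [map_sub, hf, zero_sub, neg_eq_zero] at h1
      exact h1
    set i := w (Fin.last m) with hi
    have hX : ∀ e : (BF k w).X, theta w (X (Fin.last (m + 1), i.castSucc)) e =
        X ((BF k w).pr e i.castSucc) := by
      intro e
      rw [theta_apply, rename_X]
      congr 1
      show (slot k (m + 1) w (Fin.last (m + 1)) e) i.castSucc = _
      rw [slot_last]
    have key : ∀ (e : (BF k (fun j => w j.castSucc)).X) (b : Bool),
        theta (fun j => w j.castSucc) g e + theta (fun j => w j.castSucc) h e *
          X ((BF k w).pr ((e, b) : (BF k (fun j : Fin m => w j.castSucc)).X × Bool) i.castSucc) = 0 := by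
      intro e b
      have h1 := congrFun h0 ((e, b) : (BF k (fun j : Fin m => w j.castSucc)).X × Bool)
      rw [map_add, map_mul, Pi.add_apply, Pi.mul_apply, step_theta, step_theta, hX] at h1
      exact h1
    have hh : theta (fun j : Fin m => w j.castSucc) h = 0 := by
      funext e
      have h1 := key e false
      have h2 := key e true
      have p1 : (BF k w).pr ((e, false) : (BF k (fun j : Fin m => w j.castSucc)).X × Bool) i.castSucc =
          (BF k (fun j : Fin m => w j.castSucc)).pr e i.castSucc := by
        show PCan.tbpr (BF k (fun j : Fin m => w j.castSucc)) i (e, false) i.castSucc = _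
        simp [PCan.tbpr]
      have p2 : (BF k w).pr ((e, true) : (BF k (fun j : Fin m => w j.castSucc)).X × Bool) i.castSucc =
          (BF k (fun j : Fin m => w j.castSucc)).pr e i.succ := by
        show PCan.tbpr (BF k (fun j : Fin m => w j.castSucc)) i (e, true) i.castSucc = _
        simp [PCan.tbpr, PCan.sr]
      rw [p1] at h1
      rw [p2] at h2
      have h3 : theta (fun j : Fin m => w j.castSucc) h e *
          (X ((BF k (fun j : Fin m => w j.castSucc)).pr e i.castSucc) -
            X ((BF k (fun j : Fin m => w j.castSucc)).pr e i.succ)) = 0 := by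
        linear_combination h1 - h2
      rcases mul_eq_zero.1 h3 with h4 | h4
      · exact h4
      · exfalso
        have h5 := X_injective (sub_eq_zero.1 h4)
        have h6 := ((BF k (fun j : Fin m => w j.castSucc)).pr e).injective h5
        exact absurd h6 (Fin.castSucc_lt_succ).ne
    have hg : theta (fun j : Fin m => w j.castSucc) g = 0 := by
      funext e
      have h1 := key e false
      rw [hh, Pi.zero_apply, zero_mul, add_zero] at h1
      exact h1
    have hgI := step_ideal w g (ih (fun j => w j.castSucc) g hg)
    have hhI := step_ideal w h (ih (fun j => w j.castSucc) h hh)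
    have h1 := (bsIdeal k w).add_mem H ((bsIdeal k w).add_mem hgI
      ((bsIdeal k w).mul_mem_left (X (Fin.last (m + 1), i.castSucc)) hhI))
    convert h1 using 1
    ring

end

end Pool.Agent.SBim
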