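import Pool.Agent.SBim.Theta

/-! MODULE SLOT : the map `theta` and the slots. -/

open MvPolynomial

namespace Pool.Agent.SBim

noncomputable section

variable {k : Type} [Field k] {n : ℕ}

theorem theta_apply {m : ℕ} (w : Fin m → Fin n) (f : MvPolynomial (Fin (m + 1) × Fin (n + 1)) k)
    (e : (BF k w).X) : theta w f e = rename (fun p => slot k m w p.1 e p.2) f := by
  have h : (Pi.evalAlgHom k (fun _ : (BF k w).X => PCan.R k n) e).comp (theta w) =
      rename (fun p : Fin (m + 1) × Fin (n + 1) => slot k m w p.1 e p.2) := by
    apply MvPolynomial.algHom_ext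
    intro p
    rw [AlgHom.comp_apply, theta, aeval_X, rename_X]
    rfl
  exact congrArg (fun φ => φ f) h

/-- `f` in the variables of the factor `j` -/
theorem theta_slot {m : ℕ} (w : Fin m → Fin n) (j : Fin (m + 1))
    (f : MvPolynomial (Fin (n + 1)) k) (e : (BF k w).X) :
    theta w (rename (fun i => (j, i)) f) e = PCan.act (slot k m w j e) f := by
  rw [theta_apply, rename_rename]
  rfl

theorem slot_last {m : ℕ} (w : Fin m → Fin n) (e : (BF k w).X) :
    slot k m w (Fin.last m) e = (BF k w).pr e := by
  cases m with
  | zero => rfl
  | succ m =>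
    unfold slot
    rw [Fin.lastCases_last]

theorem slot_castSucc {m : ℕ} (w : Fin (m + 1) → Fin n) (j : Fin (m + 1))
    (e : (BF k w).X) :
    slot k (m + 1) w j.castSucc e = slot k m (fun j => w j.castSucc) j e.1 := by
  conv_lhs => unfold slot
  rw [Fin.lastCases_castSucc]

theorem slot_zero {m : ℕ} (w : Fin m → Fin n) (e : (BF k w).X) : slot k m w 0 e = 1 := by
  induction m with
  | zero => rfl
  | succ m ih =>
    have h := slot_castSucc (k := k) w 0 e
    rw [Fin.castSucc_zero] at h
    rw [h, ih]

theorem slot_step {m : ℕ} (w : Fin m → Fin n) (j : Fin m) (e : (BF k w).X) :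
    slot k m w j.succ e = slot k m w j.castSucc e ∨
      slot k m w j.succ e = slot k m w j.castSucc e * PCan.sr (w j) := by
  induction m with
  | zero => exact j.elim0
  | succ m ih =>
    rcases Fin.eq_castSucc_or_eq_last j with ⟨j', rfl⟩ | rfl
    · have h := ih (fun j => w j.castSucc) j' e.1
      rw [← Fin.castSucc_succ, slot_castSucc, slot_castSucc]
      exact h
    · rw [Fin.succ_last, slot_last, slot_castSucc, slot_last]
      have h : (BF k w).pr e = if e.2 = true then
        (BF k (fun j => w j.castSucc)).pr e.1 * PCan.sr (w (Fin.last m)) else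
        (BF k (fun j => w j.castSucc)).pr e.1 := rfl
      rw [h]
      split_ifs
      · right; rfl
      · left; rfl

theorem slot_hc_rename {σ τ : Type} (g : σ → τ) (d : ℕ) (f : MvPolynomial σ k) :
    homogeneousComponent d (rename g f) = rename g (homogeneousComponent d f) := by
  conv_lhs => rw [← sum_homogeneousComponent f, map_sum, map_sum]
  have h : ∀ i ∈ Finset.range (f.totalDegree + 1),
      homogeneousComponent d (rename g (homogeneousComponent i f)) =
        if i = d then rename g (homogeneousComponent d f) else 0 := by
    intro i _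
    have h1 : rename g (homogeneousComponent i f) ∈ homogeneousSubmodule τ k i :=
      (mem_homogeneousSubmodule _ _).mpr
        (IsHomogeneous.rename_isHomogeneous (homogeneousComponent_isHomogeneous i f))
    rw [homogeneousComponent_of_mem h1]
    by_cases hi : i = d
    · subst hi; simp
    · rw [if_neg hi, if_neg (fun h => hi h.symm)]
  rw [Finset.sum_congr rfl h, Finset.sum_ite_eq']
  split_ifs with hd
  · rfl
  · rw [Finset.mem_range, not_lt] at hd
    rw [homogeneousComponent_eq_zero d f (by omega), map_zero]

theorem theta_hc {m : ℕ} (w : Fin m → Fin n) (d : ℕ)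
    (f : MvPolynomial (Fin (m + 1) × Fin (n + 1)) k) (e : (BF k w).X) :
    theta w (homogeneousComponent d f) e = homogeneousComponent d (theta w f e) := by
  rw [theta_apply, theta_apply]
  exact (slot_hc_rename _ d f).symm

end

end Pool.Agent.SBim
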