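import Pool.Agent.SBim.Slot

/-! MODULE STEP : one more tensor factor. -/

open MvPolynomial

namespace Pool.Agent.SBim

noncomputable section

variable {k : Type} [Field k] {n : ℕ}

private def STEP_P {m : ℕ} (w : Fin (m + 1) → Fin n)
    (f : MvPolynomial (Fin (m + 1 + 1) × Fin (n + 1)) k) : Prop :=
  ∃ g h : MvPolynomial (Fin (m + 1) × Fin (n + 1)) k,
    f - (up1 g + up1 h * X (Fin.last (m + 1), (w (Fin.last m)).castSucc)) ∈ bsIdeal k w

private theorem STEP_add {m : ℕ} {w : Fin (m + 1) → Fin n}
    {f f' : MvPolynomial (Fin (m + 1 + 1) × Fin (n + 1)) k} (hf : STEP_P w f) (hf' : STEP_P w f') :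
    STEP_P w (f + f') := by
  obtain ⟨g, h, H⟩ := hf
  obtain ⟨g', h', H'⟩ := hf'
  refine ⟨g + g', h + h', ?_⟩
  have := (bsIdeal k w).add_mem H H'
  convert this using 1
  rw [map_add, map_add]
  ring

private theorem STEP_congr {m : ℕ} {w : Fin (m + 1) → Fin n}
    {f f' : MvPolynomial (Fin (m + 1 + 1) × Fin (n + 1)) k} (hf : STEP_P w f)
    (h : f' - f ∈ bsIdeal k w) : STEP_P w f' := by
  obtain ⟨g, h', H⟩ := hf
  refine ⟨g, h', ?_⟩
  have := (bsIdeal k w).add_mem h H
  convert this using 1
  ring

private theorem STEP_mulup {m : ℕ} {w : Fin (m + 1) → Fin n}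
    {f : MvPolynomial (Fin (m + 1 + 1) × Fin (n + 1)) k} (hf : STEP_P w f)
    (q : MvPolynomial (Fin (m + 1) × Fin (n + 1)) k) : STEP_P w (f * up1 q) := by
  obtain ⟨g, h, H⟩ := hf
  refine ⟨g * q, h * q, ?_⟩
  have := (bsIdeal k w).mul_mem_left (up1 q) H
  convert this using 1
  rw [map_mul, map_mul]
  ring

private theorem STEP_gen {m : ℕ} (w : Fin (m + 1) → Fin n) (f : MvPolynomial (Fin (n + 1)) k)
    (hf : rename (Equiv.swap (w (Fin.last m)).castSucc (w (Fin.last m)).succ) f = f) :
    rename (fun i => (Fin.last (m + 1), i)) f - up1 (rename (fun i => (Fin.last m, i)) f) ∈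
      bsIdeal k w := by
  have h : rename (fun i => ((Fin.last m).castSucc, i)) f -
      rename (fun i => ((Fin.last m).succ, i)) f ∈ bsIdeal k w :=
    Ideal.subset_span ⟨Fin.last m, f, hf, rfl⟩
  have h2 := (bsIdeal k w).neg_mem h
  rw [neg_sub] at h2
  have e : up1 (rename (fun i => (Fin.last m, i)) f) =
      rename (fun i => ((Fin.last m).castSucc, i)) f := by
    unfold up1
    rw [rename_rename]
    rfl
  rw [e]
  exact h2

private theorem STEP_inv_add (i : Fin n) :
    rename (Equiv.swap i.castSucc i.succ) (X i.castSucc + X i.succ : MvPolynomial (Fin (n + 1)) k) =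
      X i.castSucc + X i.succ := by
  rw [map_add, rename_X, rename_X, Equiv.swap_apply_left, Equiv.swap_apply_right]
  exact add_comm _ _

private theorem STEP_inv_mul (i : Fin n) :
    rename (Equiv.swap i.castSucc i.succ) (X i.castSucc * X i.succ : MvPolynomial (Fin (n + 1)) k) =
      X i.castSucc * X i.succ := by
  rw [map_mul, rename_X, rename_X, Equiv.swap_apply_left, Equiv.swap_apply_right]
  exact mul_comm _ _

private theorem STEP_mulX {m : ℕ} {w : Fin (m + 1) → Fin n}
    {f : MvPolynomial (Fin (m + 1 + 1) × Fin (n + 1)) k} (hf : STEP_P w f) :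
    STEP_P w (f * X (Fin.last (m + 1), (w (Fin.last m)).castSucc)) := by
  obtain ⟨g, h, H⟩ := hf
  set i := w (Fin.last m) with hi
  have ha := STEP_gen (k := k) w (X i.castSucc + X i.succ) (by rw [← hi]; exact STEP_inv_add i)
  have hb := STEP_gen (k := k) w (X i.castSucc * X i.succ) (by rw [← hi]; exact STEP_inv_mul i)
  set A : MvPolynomial (Fin (m + 1) × Fin (n + 1)) k :=
    rename (fun i => (Fin.last m, i)) (X i.castSucc + X i.succ) with hA
  set B : MvPolynomial (Fin (m + 1) × Fin (n + 1)) k :=
    rename (fun i => (Fin.last m, i)) (X i.castSucc * X i.succ) with hB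
  simp only [map_add, map_mul, rename_X] at ha hb
  refine ⟨-(h * B), g + h * A, ?_⟩
  have h1 := (bsIdeal k w).mul_mem_left (X (Fin.last (m + 1), i.castSucc)) H
  have h2 := (bsIdeal k w).mul_mem_left (up1 h * X (Fin.last (m + 1), i.castSucc)) ha
  have h3 := (bsIdeal k w).mul_mem_left (up1 h) hb
  have h4 := (bsIdeal k w).sub_mem ((bsIdeal k w).add_mem h1 h2) h3
  convert h4 using 1
  rw [map_neg, map_add, map_mul, map_mul]
  ring

/-- Modulo the ideal every polynomial is `g + h x (m + 1, i)`, `i` = last letter, with `g`, `h` in the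
variables of the factors `≤ m`.  Induction on `f` (sums, products with variables): for
`i' ≠ i, i + 1` the variable `x (m + 1, i')` is congruent to `x (m, i')`; `x_i + x_(i+1)` and
`x_i x_(i+1)` are invariant, so `x_(i+1)` and `x_i ^ 2` in the factor `m + 1` can be replaced. -/
theorem step_decomp {m : ℕ} (w : Fin (m + 1) → Fin n)
    (f : MvPolynomial (Fin (m + 1 + 1) × Fin (n + 1)) k) :
    ∃ g h : MvPolynomial (Fin (m + 1) × Fin (n + 1)) k,
      f - (up1 g + up1 h * X (Fin.last (m + 1), (w (Fin.last m)).castSucc)) ∈ bsIdeal k w := by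
  show STEP_P w f
  induction f using MvPolynomial.induction_on with
  | C a =>
    refine ⟨C a, 0, ?_⟩
    rw [up1, rename_C, map_zero, zero_mul, add_zero, sub_self]
    exact (bsIdeal k w).zero_mem
  | add p q hp hq => exact STEP_add hp hq
  | mul_X p v hp =>
    obtain ⟨j, a⟩ := v
    induction j using Fin.lastCases with
    | cast j =>
      have h := STEP_mulup hp (X (j, a))
      rwa [up1, rename_X] at h
    | last =>
      set i := w (Fin.last m) with hi
      by_cases h1 : a = i.castSucc
      · rw [h1]; exact STEP_mulX hp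
      by_cases h2 : a = i.succ
      · rw [h2]
        have hgen := STEP_gen (k := k) w (X i.castSucc + X i.succ)
          (by rw [← hi]; exact STEP_inv_add i)
        have h3 := STEP_mulup hp (rename (fun i => (Fin.last m, i)) (X i.castSucc + X i.succ))
        have h4 : STEP_P w (-(p * X (Fin.last (m + 1), i.castSucc))) := by
          have := STEP_mulup (STEP_mulX hp) (-1)
          rw [← hi] at this
          rwa [map_neg, map_one, mul_neg, mul_one] at this
        refine STEP_congr (STEP_add h3 h4) ?_
        have h5 := (bsIdeal k w).mul_mem_left p hgen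
        convert h5 using 1
        simp only [map_add, rename_X]
        ring
      · have hgen := STEP_gen w (X a : MvPolynomial (Fin (n + 1)) k) (by
          rw [rename_X, ← hi, Equiv.swap_apply_of_ne_of_ne h1 h2])
        have h3 := STEP_mulup hp (rename (fun i => (Fin.last m, i)) (X a))
        refine STEP_congr h3 ?_
        have h5 := (bsIdeal k w).mul_mem_left p hgen
        convert h5 using 1
        simp only [rename_X]
        ring

theorem step_ideal {m : ℕ} (w : Fin (m + 1) → Fin n)
    (f : MvPolynomial (Fin (m + 1) × Fin (n + 1)) k)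
    (hf : f ∈ bsIdeal k (fun j => w j.castSucc)) : up1 f ∈ bsIdeal k w := by
  have hle : bsIdeal k (fun j => w j.castSucc) ≤ (bsIdeal k w).comap (up1 (k := k) (n := n)) := by
    rw [bsIdeal, Ideal.span_le]
    rintro g ⟨j, q, hq, rfl⟩
    rw [SetLike.mem_coe, Ideal.mem_comap]
    refine Ideal.subset_span ⟨j.castSucc, q, hq, ?_⟩
    rw [map_sub, up1, rename_rename, rename_rename]
    rfl
  exact hle hf

theorem step_theta {m : ℕ} (w : Fin (m + 1) → Fin n)
    (g : MvPolynomial (Fin (m + 1) × Fin (n + 1)) k) (e : (BF k w).X) :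
    theta w (up1 g) e = theta (fun j => w j.castSucc) g e.1 := by
  induction g using MvPolynomial.induction_on with
  | C a =>
    rw [up1, rename_C]
    have h1 : theta w (C a) = algebraMap k _ a := (theta w).commutes a
    have h2 : theta (fun j : Fin m => w j.castSucc) (C a) = algebraMap k _ a :=
      (theta (fun j : Fin m => w j.castSucc)).commutes a
    rw [h1, h2]
    rfl
  | add p q hp hq =>
    rw [map_add, map_add, map_add, Pi.add_apply, Pi.add_apply, hp, hq]
  | mul_X p v hp =>
    rw [map_mul, map_mul, map_mul, Pi.mul_apply, Pi.mul_apply, hp]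
    congr 1
    rw [up1, rename_X, theta, theta, aeval_X, aeval_X]
    congr 1
    show (slot k (m + 1) w v.1.castSucc e) v.2 = (slot k m (fun j => w j.castSucc) v.1 e.1) v.2
    rw [slot, Fin.lastCases_castSucc]

end

end Pool.Agent.SBim
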