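import Pool.Agent.SBim.Ker
import Pool.Agent.SBim.Ran

/-! MODULE SUB : graded sub-bimodules. -/

open MvPolynomial

namespace Pool.Agent.SBim

noncomputable section

variable {k : Type} [Field k] {n : ℕ}

private theorem act_one_aux (r : PCan.R k n) : PCan.act (1 : PCan.W n) r = r := by
  show rename (id : Fin (n + 1) → Fin (n + 1)) r = r
  exact rename_id_apply r

private theorem theta_left_aux {m : ℕ} (w : Fin m → Fin n) (r : PCan.R k n)
    (c : MvPolynomial (Fin (m + 1) × Fin (n + 1)) k) :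
    theta w (rename (fun i => (0, i)) r * c) = r • theta w c := by
  rw [map_mul]
  funext e
  rw [Pi.mul_apply, theta_slot, slot_zero, act_one_aux]
  rfl

private theorem theta_right_aux {m : ℕ} (w : Fin m → Fin n) (r : PCan.R k n)
    (c : MvPolynomial (Fin (m + 1) × Fin (n + 1)) k) :
    theta w (rename (fun i => (Fin.last m, i)) r * c) =
      fun e => PCan.act ((BF k w).pr e) r * theta w c e := by
  rw [map_mul]
  funext e
  rw [Pi.mul_apply, theta_slot, slot_last]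

theorem img_smul {m : ℕ} (w : Fin m → Fin n)
    {C : Submodule k (MvPolynomial (Fin (m + 1) × Fin (n + 1)) k)} (hC : IsSubBim w C)
    (r : PCan.R k n) {g : (BF k w).X → PCan.R k n} (hg : ∃ c ∈ C, theta w c = g) :
    ∃ c ∈ C, theta w c = r • g := by
  obtain ⟨c, hc, rfl⟩ := hg
  exact ⟨_, (hC.2.1 c hc r).1, theta_left_aux w r c⟩

/-- the image of `C` -/
def img {m : ℕ} (w : Fin m → Fin n)
    (C : Submodule k (MvPolynomial (Fin (m + 1) × Fin (n + 1)) k)) (hC : IsSubBim w C) :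
    Submodule (PCan.R k n) ((BF k w).X → PCan.R k n) where
  carrier := {g | ∃ c ∈ C, theta w c = g}
  add_mem' := by
    rintro _ _ ⟨c, hc, rfl⟩ ⟨c', hc', rfl⟩
    exact ⟨c + c', C.add_mem hc hc', map_add _ _ _⟩
  zero_mem' := ⟨0, C.zero_mem, map_zero _⟩
  smul_mem' := fun r _ hg => img_smul w hC r hg

private theorem mem_img_aux {m : ℕ} (w : Fin m → Fin n)
    (C : Submodule k (MvPolynomial (Fin (m + 1) × Fin (n + 1)) k)) (hC : IsSubBim w C)
    (g : (BF k w).X → PCan.R k n) : g ∈ img w C hC ↔ ∃ c ∈ C, theta w c = g := Iff.rfl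

theorem img_isSub {m : ℕ} (w : Fin m → Fin n)
    (C : Submodule k (MvPolynomial (Fin (m + 1) × Fin (n + 1)) k)) (hC : IsSubBim w C) :
    PCan.IsSub (BF k w) (img w C hC) := by
  refine ⟨?_, ?_, ?_⟩
  · rintro _ ⟨c, _, rfl⟩
    exact theta_mem w c
  · rintro _ ⟨c, hc, rfl⟩ r
    exact ⟨_, (hC.2.1 c hc r).2, theta_right_aux w r c⟩
  · rintro _ ⟨c, hc, rfl⟩ j
    refine ⟨_, hC.2.2 c hc j, ?_⟩
    funext e
    exact theta_hc w j c e

theorem mem_of_theta {m : ℕ} (w : Fin m → Fin n)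
    (C : Submodule k (MvPolynomial (Fin (m + 1) × Fin (n + 1)) k)) (hC : IsSubBim w C)
    (c : MvPolynomial (Fin (m + 1) × Fin (n + 1)) k) (h : theta w c ∈ img w C hC) : c ∈ C := by
  obtain ⟨c', hc', h'⟩ := h
  have h1 : theta w (c - c') = 0 := by rw [map_sub, h', sub_self]
  have h2 := hC.1 _ ((theta_eq_zero w (c - c')).1 h1)
  have h3 := C.add_mem h2 hc'
  rwa [sub_add_cancel] at h3

theorem exists_pre {m : ℕ} (w : Fin m → Fin n)
    (S : Submodule (PCan.R k n) ((BF k w).X → PCan.R k n)) (hS : PCan.IsSub (BF k w) S) :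
    ∃ (C : Submodule k (MvPolynomial (Fin (m + 1) × Fin (n + 1)) k)) (hC : IsSubBim w C),
      img w C hC = S := by
  obtain ⟨hS1, hS2, hS3⟩ := hS
  have hmem : ∀ c, c ∈ (S.restrictScalars k).comap (theta w).toLinearMap ↔ theta w c ∈ S :=
    fun c => Iff.rfl
  have hsub : IsSubBim w ((S.restrictScalars k).comap (theta w).toLinearMap) := ?_
  · refine ⟨_, hsub, ?_⟩
    ext g
    constructor
    · rintro ⟨c, hc, rfl⟩
      exact hc
    · intro hg
      obtain ⟨f, rfl⟩ := theta_surj w (hS1 hg)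
      exact ⟨f, hg, rfl⟩
  refine ⟨?_, ?_, ?_⟩
  · intro g hg
    rw [hmem, (theta_eq_zero w g).2 hg]
    exact S.zero_mem
  · intro c hc f
    rw [hmem] at hc
    refine ⟨?_, ?_⟩
    · rw [hmem, theta_left_aux]
      exact S.smul_mem f hc
    · rw [hmem, theta_right_aux]
      exact hS2 _ hc f
  · intro c hc d
    rw [hmem] at hc ⊢
    have h1 : theta w (homogeneousComponent d c) =
        fun e => homogeneousComponent d (theta w c e) := by
      funext e
      exact theta_hc w d c e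
    rw [h1]
    exact hS3 _ hc d

theorem top_isSubBim {m : ℕ} (w : Fin m → Fin n) :
    IsSubBim w (⊤ : Submodule k (MvPolynomial (Fin (m + 1) × Fin (n + 1)) k)) :=
  ⟨fun _ _ => Submodule.mem_top, fun _ _ _ => ⟨Submodule.mem_top, Submodule.mem_top⟩,
    fun _ _ _ => Submodule.mem_top⟩

theorem img_top {m : ℕ} (w : Fin m → Fin n) :
    img w (⊤ : Submodule k (MvPolynomial (Fin (m + 1) × Fin (n + 1)) k)) (top_isSubBim w) =
      (BF k w).L := by
  ext g
  rw [mem_img_aux]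
  constructor
  · rintro ⟨c, _, rfl⟩
    exact theta_mem w c
  · intro hg
    obtain ⟨f, rfl⟩ := theta_surj w hg
    exact ⟨f, Submodule.mem_top, rfl⟩

theorem img_zero {m : ℕ} (w : Fin m → Fin n)
    (C : Submodule k (MvPolynomial (Fin (m + 1) × Fin (n + 1)) k)) (hC : IsSubBim w C) :
    img w C hC = ⊥ ↔ IsZero w C := by
  rw [Submodule.eq_bot_iff]
  constructor
  · intro h c hc
    exact (theta_eq_zero w c).1 (h _ ⟨c, hc, rfl⟩)
  · rintro h _ ⟨c, hc, rfl⟩
    exact (theta_eq_zero w c).2 (h c hc)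

theorem img_sum {m : ℕ} (w : Fin m → Fin n)
    (C C₁ C₂ : Submodule k (MvPolynomial (Fin (m + 1) × Fin (n + 1)) k)) (hC : IsSubBim w C)
    (h₁ : IsSubBim w C₁) (h₂ : IsSubBim w C₂) :
    (img w C₁ h₁ ⊓ img w C₂ h₂ = ⊥ ∧ img w C₁ h₁ ⊔ img w C₂ h₂ = img w C hC) ↔
      IsSum w C C₁ C₂ := by
  constructor
  · rintro ⟨hi, hs⟩
    refine ⟨h₁, h₂, le_antisymm (sup_le ?_ ?_) ?_, ?_⟩
    · intro c hc
      apply mem_of_theta w C hC
      rw [← hs]
      exact Submodule.mem_sup_left ⟨c, hc, rfl⟩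
    · intro c hc
      apply mem_of_theta w C hC
      rw [← hs]
      exact Submodule.mem_sup_right ⟨c, hc, rfl⟩
    · intro c hc
      have h : theta w c ∈ img w C₁ h₁ ⊔ img w C₂ h₂ := by
        rw [hs]
        exact ⟨c, hc, rfl⟩
      obtain ⟨a, ⟨c₁, hc₁, rfl⟩, b, ⟨c₂, hc₂, rfl⟩, hab⟩ := Submodule.mem_sup.1 h
      have h3 : theta w (c - c₂) ∈ img w C₁ h₁ := by
        rw [map_sub, ← hab, add_sub_cancel_right]
        exact ⟨c₁, hc₁, rfl⟩
      have h4 := mem_of_theta w C₁ h₁ _ h3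
      have h5 : c = (c - c₂) + c₂ := by rw [sub_add_cancel]
      rw [h5]
      exact Submodule.add_mem_sup h4 hc₂
    · intro c hc hc'
      rw [← theta_eq_zero]
      have h : theta w c ∈ img w C₁ h₁ ⊓ img w C₂ h₂ := ⟨⟨c, hc, rfl⟩, ⟨c, hc', rfl⟩⟩
      rw [hi] at h
      exact (Submodule.mem_bot _).1 h
  · rintro ⟨_, _, hs, hi⟩
    refine ⟨?_, le_antisymm (sup_le ?_ ?_) ?_⟩
    · rw [Submodule.eq_bot_iff]
      rintro _ ⟨⟨c, hc, rfl⟩, h2⟩
      exact (theta_eq_zero w c).2 (hi c hc (mem_of_theta w C₂ h₂ c h2))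
    · rintro _ ⟨c, hc, rfl⟩
      refine ⟨c, ?_, rfl⟩
      rw [← hs]
      exact Submodule.mem_sup_left hc
    · rintro _ ⟨c, hc, rfl⟩
      refine ⟨c, ?_, rfl⟩
      rw [← hs]
      exact Submodule.mem_sup_right hc
    · rintro _ ⟨c, hc, rfl⟩
      rw [← hs] at hc
      obtain ⟨c₁, hc₁, c₂, hc₂, rfl⟩ := Submodule.mem_sup.1 hc
      rw [map_add]
      exact Submodule.add_mem_sup ⟨c₁, hc₁, rfl⟩ ⟨c₂, hc₂, rfl⟩

end

end Pool.Agent.SBim
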