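import Pool.Agent.SBim.Defs
import Pool.Agent.PCan.Elt

/-! Comparison of the definitions of `SBim.Defs` (quotients of polynomial rings) with the function
modules of `PCan`: the map `theta`. -/

open MvPolynomial

namespace Pool.Agent.SBim

noncomputable section

variable {k : Type} [Field k] {n : ℕ}

/-- the word as a list; the head is the last letter -/
def lst : (m : ℕ) → (Fin m → Fin n) → List (Fin n)
  | 0, _ => []
  | m + 1, w => w (Fin.last m) :: lst m (fun j => w j.castSucc)

/-- the bimodule of functions -/
abbrev BF (k : Type) [Field k] {m n : ℕ} (w : Fin m → Fin n) : PCan.Bim k n :=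
  PCan.BSb k (lst m w)

/-- the permutation belonging to the tensor factor `j` at the point `e` -/
def slot (k : Type) [Field k] {n : ℕ} : (m : ℕ) → (w : Fin m → Fin n) → Fin (m + 1) →
    (BF k w).X → PCan.W n
  | 0, _, _, _ => 1
  | m + 1, w, j, e => Fin.lastCases (motive := fun _ => PCan.W n) ((BF k w).pr e)
      (fun j' => slot k m (fun j => w j.castSucc) j' e.1) j

/-- the variable `x (j, i)` as a function on the points -/
def theta {m : ℕ} (w : Fin m → Fin n) :
    MvPolynomial (Fin (m + 1) × Fin (n + 1)) k →ₐ[k] ((BF k w).X → PCan.R k n) :=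
  aeval (fun p e => X (slot k m w p.1 e p.2))

/-- inclusion of the first tensor factors -/
def up1 {m n : ℕ} : MvPolynomial (Fin (m + 1) × Fin (n + 1)) k →ₐ[k]
    MvPolynomial (Fin (m + 1 + 1) × Fin (n + 1)) k :=
  rename (fun p => (p.1.castSucc, p.2))

end

end Pool.Agent.SBim
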